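import Pool.Agent.Y262.QE.Stm

/-!
# Project QE: the one-sided derivative of an eigenvalue
-/

set_option autoImplicit false

open Set Filter Topology MeasureTheory

noncomputable section

namespace Pool.Agent.Y726.QE

open Pool.Agent.Y262.QE

variable {H : Type} [NormedAddCommGroup H] [InnerProductSpace ℝ H]

lemma bil_sum {ι : Type} [Fintype ι] (B : H →L[ℝ] H →L[ℝ] ℝ) (f : ι → H) (c d : ι → ℝ) :
    B (∑ i, c i • f i) (∑ i, d i • f i) = ∑ i, ∑ i', c i * (d i' * B (f i) (f i')) := by
  have h0 : B (∑ i, c i • f i) = ∑ i, c i • B (f i) := by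
    rw [map_sum]
    exact Finset.sum_congr rfl fun i _ => map_smul B (c i) (f i)
  rw [h0, ContinuousLinearMap.sum_apply]
  refine Finset.sum_congr rfl fun i _ => ?_
  rw [map_sum]
  refine Finset.sum_congr rfl fun i' _ => ?_
  rw [ContinuousLinearMap.smul_apply, map_smul, smul_eq_mul, smul_eq_mul]

lemma bil_diag {ι : Type} [Fintype ι] [DecidableEq ι] (B : H →L[ℝ] H →L[ℝ] ℝ) (f : ι → H)
    (β : ι → ℝ) (hB : ∀ i i', B (f i) (f i') = if i = i' then β i else 0) (c d : ι → ℝ) :
    B (∑ i, c i • f i) (∑ i, d i • f i) = ∑ i, β i * (c i * d i) := by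
  rw [bil_sum]
  refine Finset.sum_congr rfl fun i _ => ?_
  rw [Finset.sum_eq_single i]
  · rw [hB]; simp; ring
  · intro i' _ hne
    rw [hB, if_neg (Ne.symm hne)]; simp
  · intro h; exact absurd (Finset.mem_univ i) h

lemma exists_gap {ι : Type} (s : Finset ι) (f : ι → ℝ) (hf : ∀ i ∈ s, 0 < f i) :
    ∃ g : ℝ, 0 < g ∧ ∀ i ∈ s, g ≤ f i := by
  classical
  induction s using Finset.induction_on with
  | empty => exact ⟨1, one_pos, by simp⟩
  | insert a s ha ih =>
    obtain ⟨g, hg, hg'⟩ := ih fun i hi => hf i (Finset.mem_insert_of_mem hi)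
    refine ⟨min g (f a), lt_min hg (hf a (Finset.mem_insert_self a s)), fun i hi => ?_⟩
    rcases Finset.mem_insert.1 hi with rfl | hi
    · exact min_le_right _ _
    · exact (min_le_left _ _).trans (hg' i hi)

theorem der : StDer := by
  classical
  intro H _ _ a b hF e E hE k K ksym hk j m m' hm' hmm hm
  -- the eigenvalues are nonnegative
  have hE0 : ∀ i, 0 ≤ E i := by
    intro i
    have h1 := hF.na (e i)
    rw [hE.eig, hE.orth, if_pos rfl, mul_one] at h1
    exact h1
  have hmpos : 0 < m := lt_of_le_of_lt hm' hmm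
  -- the gap
  obtain ⟨g, hg, hgap⟩ := exists_gap ((Finset.univ : Finset (Fin (j + 1))).filter
    fun i : Fin (j + 1) => E i ≠ E j) (fun i : Fin (j + 1) => E j - E i) (by
      intro i hi
      rw [Finset.mem_filter] at hi
      have h1 : E i ≤ E j := hE.mono (Nat.lt_succ_iff.1 i.2)
      have h2 := lt_of_le_of_ne h1 hi.2
      linarith)
  set θ : ℝ := (m - m') / (2 * m) with hθ
  have hθ0 : 0 < θ := div_pos (by linarith) (by linarith)
  have hθ1 : θ ≤ 1 := by
    rw [hθ, div_le_one (by linarith)]; linarith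
  have hθm : (1 - θ) * m = (m + m') / 2 := by
    rw [hθ]; field_simp; ring
  set m2 : ℝ := (m + m') / 2 with hm2
  have hm2' : m' < m2 := by rw [hm2]; linarith
  have hm20 : 0 < m2 := lt_of_le_of_lt hm' hm2'
  set Q : ℝ := θ⁻¹ * |K| with hQ
  have hQ0 : 0 ≤ Q := mul_nonneg (inv_nonneg.2 hθ0.le) (abs_nonneg K)
  refine ⟨min (1 / (m' + 1)) (min ((m2 - m') / (m' * m2 + 1)) (g / (E j * (m' + Q) + 1))),
    ?_, ?_⟩
  · refine lt_min (by positivity) (lt_min (div_pos (by linarith) (by positivity))
      (div_pos hg ?_))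
    have := mul_nonneg (hE0 j) (add_nonneg hm' hQ0)
    linarith
  intro τ hτ0 hτ b' hb'
  have hτ1 : m' * τ ≤ 1 := by
    have h1 : τ < 1 / (m' + 1) := lt_of_lt_of_le hτ (min_le_left _ _)
    rw [lt_div_iff₀ (by linarith)] at h1
    nlinarith
  have hτ2 : m' * m2 * τ ≤ m2 - m' := by
    have h1 : τ < (m2 - m') / (m' * m2 + 1) :=
      lt_of_lt_of_le hτ ((min_le_right _ _).trans (min_le_left _ _))
    rw [lt_div_iff₀ (by positivity)] at h1
    nlinarith
  have hτ3 : E j * (m' + Q) * τ ≤ g := by
    have h1 : τ < g / (E j * (m' + Q) + 1) :=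
      lt_of_lt_of_le hτ ((min_le_right _ _).trans (min_le_right _ _))
    have h0 := mul_nonneg (hE0 j) (add_nonneg hm' hQ0)
    rw [lt_div_iff₀ (by linarith)] at h1
    nlinarith
  have hlam0 : 0 ≤ E j * (1 - m' * τ) := mul_nonneg (hE0 j) (by linarith)
  -- the subspace
  let f : Fin (j + 1) → H := fun i => e i
  have horth : ∀ i i' : Fin (j + 1), b (f i) (f i') = if i = i' then (1 : ℝ) else 0 := by
    intro i i'
    show b (e i) (e i') = _
    rw [hE.orth]
    by_cases h : i = i'
    · subst h; simp
    · have h' : (i : ℕ) ≠ (i' : ℕ) := fun h2 => h (Fin.ext h2)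
      rw [if_neg h, if_neg h']
  have haorth : ∀ i i' : Fin (j + 1), a (f i) (f i') = if i = i' then E i else 0 := by
    intro i i'
    have h1 : a (f i) (f i') = E i * b (f i) (f i') := hE.eig i (f i')
    rw [h1, horth]
    by_cases h : i = i'
    · simp [h]
    · simp [h]
  have hlin : LinearIndependent ℝ f := by
    rw [Fintype.linearIndependent_iff]
    intro c hc i
    have h1 := bil_diag b f (fun _ => 1) horth c c
    rw [hc] at h1
    simp only [map_zero, one_mul] at h1
    have h2 : ∀ i ∈ (Finset.univ : Finset (Fin (j + 1))), 0 ≤ c i * c i :=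
      fun i _ => mul_self_nonneg _
    have h3 := (Finset.sum_eq_zero_iff_of_nonneg h2).1 h1.symm i (Finset.mem_univ i)
    exact mul_self_eq_zero.1 h3
  have hHD : HD a b' (E j * (1 - m' * τ)) j := by
    refine ⟨Submodule.span ℝ (range f), ?_, ?_⟩
    · rw [finrank_span_eq_card hlin, Fintype.card_fin]
    · intro v hv
      obtain ⟨c, rfl⟩ := (Submodule.mem_span_range_iff_exists_fun ℝ).1 hv
      set c1 : Fin (j + 1) → ℝ := fun i => if E i = E j then 0 else c i with hc1
      set c2 : Fin (j + 1) → ℝ := fun i => if E i = E j then c i else 0 with hc2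
      set v := ∑ i, c i • f i with hv'
      set v1 := ∑ i, c1 i • f i with hv1
      set v2 := ∑ i, c2 i • f i with hv2
      have hsum : v = v1 + v2 := by
        rw [hv', hv1, hv2, ← Finset.sum_add_distrib]
        refine Finset.sum_congr rfl fun i _ => ?_
        rw [← add_smul]
        congr 1
        simp only [hc1, hc2]
        split_ifs <;> ring
      have hbv : b v v = ∑ i, c i * c i := by
        rw [hv', bil_diag b f (fun _ => 1) horth]; simp
      have hb1 : b v1 v1 = ∑ i, c1 i * c1 i := by
        rw [hv1, bil_diag b f (fun _ => 1) horth]; simp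
      have hb2 : b v2 v2 = ∑ i, c2 i * c2 i := by
        rw [hv2, bil_diag b f (fun _ => 1) horth]; simp
      have hb12 : b v v = b v1 v1 + b v2 v2 := by
        rw [hbv, hb1, hb2, ← Finset.sum_add_distrib]
        refine Finset.sum_congr rfl fun i _ => ?_
        simp only [hc1, hc2]
        split_ifs <;> ring
      have hav : a v v ≤ E j * (b v1 v1 + b v2 v2) - g * b v1 v1 := by
        have h1 : a v v = ∑ i : Fin (j + 1), E i * (c i * c i) := by
          rw [hv', bil_diag a f (fun i => E i) haorth]
        rw [h1, ← hb12, hbv, hb1, Finset.mul_sum, Finset.mul_sum, ← Finset.sum_sub_distrib]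
        refine Finset.sum_le_sum fun i _ => ?_
        by_cases h : E i = E j
        · simp [hc1, h]
        · have h2 := hgap i (by rw [Finset.mem_filter]; exact ⟨Finset.mem_univ i, h⟩)
          simp only [hc1, if_neg h]
          nlinarith [mul_self_nonneg (c i)]
      have heig : ∀ w, a v2 w = E j * b v2 w := by
        intro w
        rw [hv2, map_sum, map_sum, ContinuousLinearMap.sum_apply, ContinuousLinearMap.sum_apply,
          Finset.mul_sum]
        refine Finset.sum_congr rfl fun i _ => ?_
        have h1 : a (f i) w = E i * b (f i) w := hE.eig i w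
        rw [map_smul, map_smul, ContinuousLinearMap.smul_apply, ContinuousLinearMap.smul_apply,
          smul_eq_mul, smul_eq_mul, h1]
        by_cases h : E i = E j
        · rw [h]; ring
        · simp [hc2, h]
      have hk2 : m * b v2 v2 ≤ k v2 v2 := hm v2 heig
      have hk1 : k v1 v1 ≤ |K| * b v1 v1 :=
        (hk v1).2.trans (mul_le_mul_of_nonneg_right (le_abs_self K) (hF.nb v1))
      have hk1' := (hk v1).1
      -- Cauchy-Schwarz with a weight
      have hcs : 0 ≤ k (θ • v2 + v1) (θ • v2 + v1) := (hk _).1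
      have hcs' : k (θ • v2 + v1) (θ • v2 + v1)
          = θ * θ * k v2 v2 + 2 * θ * k v1 v2 + k v1 v1 := by
        simp only [map_add, map_smul, ContinuousLinearMap.add_apply,
          ContinuousLinearMap.smul_apply, smul_eq_mul]
        rw [ksym v2 v1]; ring
      have hkv : k v v = k v1 v1 + 2 * k v1 v2 + k v2 v2 := by
        rw [hsum]
        simp only [map_add, ContinuousLinearMap.add_apply]
        rw [ksym v2 v1]; ring
      have hkv' : m2 * b v2 v2 - Q * b v1 v1 ≤ k v v := by
        rw [hcs'] at hcs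
        have h1 : 0 ≤ θ * k v2 v2 + 2 * k v1 v2 + θ⁻¹ * k v1 v1 := by
          have h2 : θ * k v2 v2 + 2 * k v1 v2 + θ⁻¹ * k v1 v1
              = θ⁻¹ * (θ * θ * k v2 v2 + 2 * θ * k v1 v2 + k v1 v1) := by
            field_simp
          rw [h2]; exact mul_nonneg (inv_nonneg.2 hθ0.le) hcs
        have h3 : (1 - θ) * (m * b v2 v2) ≤ (1 - θ) * k v2 v2 :=
          mul_le_mul_of_nonneg_left hk2 (by linarith)
        have h4 : θ⁻¹ * k v1 v1 ≤ Q * b v1 v1 := by
          rw [hQ, mul_assoc]
          exact mul_le_mul_of_nonneg_left hk1 (inv_nonneg.2 hθ0.le)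
        rw [← mul_assoc, hθm] at h3
        rw [hkv]
        linarith
      have hb'v := hb' v
      have hX := hF.nb v1
      have hY := hF.nb v2
      set X := b v1 v1 with hXX
      set Y := b v2 v2 with hYY
      have hlow : X + Y + τ * (m2 * Y - Q * X) ≤ b' v v := by
        have := mul_le_mul_of_nonneg_left hkv' hτ0.le
        rw [hb12] at hb'v
        linarith
      have hmain : E j * (X + Y) - g * X ≤
          E j * (1 - m' * τ) * (X + Y + τ * (m2 * Y - Q * X)) := by
        have e1 : E j * (1 - m' * τ) * (X + Y + τ * (m2 * Y - Q * X)) -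
            (E j * (X + Y) - g * X) =
            E j * τ * ((m2 - m') - m' * m2 * τ) * Y +
              ((g - E j * (m' + Q) * τ) + E j * (m' * τ * (τ * Q))) * X := by ring
        have p1 : 0 ≤ E j * τ * ((m2 - m') - m' * m2 * τ) * Y :=
          mul_nonneg (mul_nonneg (mul_nonneg (hE0 j) hτ0.le) (by linarith)) hY
        have p2 : 0 ≤ ((g - E j * (m' + Q) * τ) + E j * (m' * τ * (τ * Q))) * X := by
          refine mul_nonneg (add_nonneg (by linarith) (mul_nonneg (hE0 j) ?_)) hX
          positivity
        linarith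
      calc a v v ≤ E j * (X + Y) - g * X := hav
        _ ≤ _ := hmain
        _ ≤ E j * (1 - m' * τ) * b' v v := mul_le_mul_of_nonneg_left hlow hlam0
  exact csInf_le ⟨0, fun x hx => hx.1⟩ ⟨hlam0, hHD⟩

end Pool.Agent.Y726.QE
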